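import Mathlib

/-! Project MC. Two interior entries of Pascal's triangle below each other have a common divisor. -/

set_option autoImplicit false

namespace Pool.Agent.Helper2.MC

theorem le_choose (m : ℕ) : ∀ j, 1 ≤ j → j + 1 ≤ m → m ≤ m.choose j := by
  induction m with
  | zero => intro j h1 h2; omega
  | succ m ih =>
    intro j h1 h2
    obtain ⟨j, rfl⟩ : ∃ i, j = i + 1 := ⟨j - 1, by omega⟩
    rw [Nat.choose_succ_succ']
    rcases Nat.eq_zero_or_pos j with rfl | hj
    · simp [add_comm]
    · rcases Nat.lt_or_ge (j + 1) m with h3 | h3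
      · have h4 := ih j hj (by omega)
        have h5 := ih (j + 1) (by omega) (by omega)
        omega
      · have h4 : m = j + 1 := by omega
        subst h4
        rw [Nat.choose_self, Nat.choose_succ_self_right]

theorem not_coprime_choose {n k : ℕ} (hk : 2 ≤ k) (hn : k + 2 ≤ n) :
    ¬ Nat.Coprime ((n - 1).choose k) (n.choose k) := by
  intro h
  obtain ⟨m, rfl⟩ : ∃ m, n = m + 1 := ⟨n - 1, by omega⟩
  rw [Nat.add_sub_cancel] at h
  have h1 := Nat.choose_mul_succ_eq m k
  have h2 : (m + 1).choose k ∣ m.choose k * (m + 1) := ⟨_, h1⟩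
  have h3 : (m + 1).choose k ∣ m + 1 := h.symm.dvd_of_dvd_mul_left h2
  have h4 := Nat.le_of_dvd (by omega) h3
  obtain ⟨k, rfl⟩ : ∃ i, k = i + 1 := ⟨k - 1, by omega⟩
  rw [Nat.choose_succ_succ'] at h4
  have h5 := le_choose m k (by omega) (by omega)
  have h6 : m ≤ m.choose (k + 1) := le_choose m (k + 1) (by omega) (by omega)
  omega

end Pool.Agent.Helper2.MC
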