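import Pool.Agent.Helper42.AV.RD
import Pool.Agent.Helper75.UN.SR
import Pool.Agent.Helper54.MT.Iso

/-!
Project MC (MP_b8862a_ag). An irreducible Lie algebra of endomorphisms of trace zero which contains, up to a scalar, an
idempotent whose rank is prime to the dimension, is simple.
-/

set_option autoImplicit false
set_option linter.unusedSectionVars false

open Module

attribute [local instance 100] LieRing.ofAssociativeRing

namespace Pool.Agent.Helper2.MC

open MTP UN AV Pool.Agent.Helper54.MT

variable {K V : Type*} [Field K] [CharZero K] [IsAlgClosed K] [AddCommGroup V] [Module K V] [FiniteDimensional K V]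

omit [IsAlgClosed K] in
/-- the trace of an idempotent -/
theorem trace_of_idem {W : Type*} [AddCommGroup W] [Module K W] [FiniteDimensional K W] {q : End K W}
    (hq : q * q = q) : LinearMap.trace K W q = (finrank K (LinearMap.range q) : K) :=
  (LinearMap.IsIdempotentElem.isProj_range q hq).trace

omit [IsAlgClosed K] in
/-- one of two commuting spaces is irreducible -/
theorem irr_left {I J : Submodule K (End K V)} (h : Two I J) {P : End K V} (hP : P * P = P)
    (hPI : P ∈ Algebra.adjoin K (I : Set (End K V)))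
    (hcop : Nat.Coprime (finrank K (LinearMap.range P)) (finrank K V)) (U : Submodule K V)
    (hU : ∀ a ∈ I, ∀ w ∈ U, a w ∈ U) : U = ⊥ ∨ U = ⊤ := by
  have hPU := adjoin_stable hU hPI
  have h1 := h.trace_mul hPI hU hPU
  have hPP : P.restrict hPU * P.restrict hPU = P.restrict hPU := by
    ext w
    exact LinearMap.congr_fun hP w
  rw [trace_of_idem hP, trace_of_idem hPP] at h1
  have h2 : finrank K V * finrank K (LinearMap.range (P.restrict hPU)) =
      finrank K U * finrank K (LinearMap.range P) := by exact_mod_cast h1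
  have h3 : finrank K V ∣ finrank K U := hcop.symm.dvd_of_dvd_mul_right (Dvd.intro _ h2)
  have h4 := Submodule.finrank_le U
  rcases Nat.eq_zero_or_pos (finrank K U) with h5 | h5
  · left
    exact Submodule.finrank_eq_zero.1 h5
  · right
    exact Submodule.eq_top_of_finrank_eq (le_antisymm h4 (Nat.le_of_dvd h5 h3))

theorem simple_of_coprime {L : LieSubalgebra K (End K V)}
    (hirr : ∀ W : Submodule K V, (∀ z ∈ L, ∀ w ∈ W, z w ∈ W) → W = ⊥ ∨ W = ⊤)
    (htr : ∀ z ∈ L, LinearMap.trace K V z = 0) {P : End K V} (hP : P * P = P) {d : K}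
    (hd : P - d • 1 ∈ L) (hcop : Nat.Coprime (finrank K (LinearMap.range P)) (finrank K V))
    (h2 : 2 ≤ finrank K V) : LieAlgebra.IsSimple K L := by
  have hV : Nontrivial V := Module.nontrivial_of_finrank_pos (R := K) (by omega)
  obtain ⟨M0, hM0⟩ : ∃ M0 : Submodule K (End K V), M0 = L.toSubmodule := ⟨_, rfl⟩
  have hmem : ∀ x, x ∈ M0 ↔ x ∈ L := fun x => by rw [hM0]; exact Iff.rfl
  have hbr : ∀ x ∈ M0, ∀ y ∈ M0, x * y - y * x ∈ M0 := by
    intro x hx y hy
    rw [hmem] at hx hy ⊢
    exact L.lie_mem hx hy
  have R : Rs (⊤ : Submodule K (End K V)) (LinearMap.id : End K V →ₗ[K] End K V) :=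
    { mul := fun _ _ _ _ => trivial
      hom := fun _ _ _ _ => rfl
      inj := fun _ _ h => h
      surj := fun φ => ⟨φ, trivial, rfl⟩
      mult := ⟨1, one_pos, fun x _ => by rw [Nat.cast_one, one_mul]; rfl, fun x _ => by rw [one_mul]; rfl⟩ }
  have hirr' : ∀ U : Submodule K V, (∀ x ∈ M0, ∀ w ∈ U, (LinearMap.id : End K V →ₗ[K] End K V) x w ∈ U) →
      U = ⊥ ∨ U = ⊤ := fun U hU => hirr U fun z hz => hU z ((hmem z).2 hz)
  have htr' : ∀ x ∈ M0, LinearMap.trace K V x = 0 := fun x hx => htr x ((hmem x).1 hx)
  have hred : Red M0 := R.red le_top hbr hirr' htr'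
  have hzero : ∀ x ∈ M0, (∃ c : K, x = c • 1) → x = 0 := by
    rintro x hx ⟨c, rfl⟩
    have h3 := htr' _ hx
    rw [map_smul, LinearMap.trace_one, smul_eq_mul] at h3
    have h4 : (finrank K V : K) ≠ 0 := by
      have : finrank K V ≠ 0 := by omega
      exact_mod_cast this
    rw [(mul_eq_zero.1 h3).resolve_right h4, zero_smul]
  obtain ⟨s, hs⟩ : ∃ s, s = P - d • (1 : End K V) := ⟨_, rfl⟩
  have hsP : P = s + d • 1 := by rw [hs, sub_add_cancel]
  have hsM : s ∈ M0 := by rw [hmem, hs]; exact hd
  have hss : s * s = (d - d * d) • 1 + ((1 - 2 * d) • (1 : End K V)) * s := by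
    rw [hs]
    simp only [mul_sub, sub_mul, smul_mul_assoc, mul_smul_comm, one_mul, mul_one, hP, smul_sub, smul_smul]
    module
  have hsmp : Smp M0 := by
    intro M hM1 hM2
    have hM : IsId M0 M := ⟨hM1, hM2⟩
    have hO := orth_isId hbr hM
    have hT : Two M (orth M0 M) :=
      { comm := fun a ha b hb => hred.orth_comm hM ha hb
        irr := fun W h3 h4 => by
          refine hirr' W fun x hx w hw => ?_
          obtain ⟨a, ha, hb⟩ := hred.sup_orth hM hx
          have e : x w = a w + (x - a) w := by
            rw [LinearMap.sub_apply]; abel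
          show x w ∈ W
          rw [e]
          exact W.add_mem (h3 a ha w hw) (h4 _ hb w hw) }
    have hadj : ∀ I : Submodule K (End K V), s ∈ I → P ∈ Algebra.adjoin K (I : Set (End K V)) := by
      intro I hI
      rw [hsP]
      exact Subalgebra.add_mem _ (Algebra.subset_adjoin hI) (Subalgebra.smul_mem _ (Subalgebra.one_mem _) _)
    rcases hred.sq_dich hM hsM (w := (1 - 2 * d) • (1 : End K V)) (fun x _ => by
      rw [smul_mul_assoc, mul_smul_comm, one_mul, mul_one]) hss with h3 | h3
    · right
      have hi := fun U hU => irr_left hT hP (hadj M h3) hcop U hU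
      refine le_antisymm hM1 fun z hz => ?_
      obtain ⟨a, ha, hb⟩ := hred.sup_orth hM hz
      have h4 : z - a = 0 := by
        refine hzero _ hb.1 (RD.schur (S := (M : Set (End K V))) (fun U hU => hi U hU) fun y hy => ?_)
        exact (hT.comm y hy _ hb).symm
      rw [sub_eq_zero.1 h4]
      exact ha
    · left
      have hi := fun U hU => irr_left hT.symm hP (hadj _ h3) hcop U hU
      rw [eq_bot_iff]
      intro z hz
      rw [Submodule.mem_bot]
      exact hzero _ (hM1 hz) (RD.schur (S := (orth M0 M : Set (End K V))) (fun U hU => hi U hU)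
        fun y hy => hT.comm z hz y hy)
  have hs0 : s ≠ 0 := by
    intro h0
    rw [h0, zero_add] at hsP
    have h3 : (d * d) • (1 : End K V) = d • 1 := by
      rw [hsP] at hP
      rw [← hP, smul_mul_smul_comm, one_mul]
    have h4 : d * d = d := by
      obtain ⟨v, hv⟩ := exists_ne (0 : V)
      exact smul_left_injective K hv (LinearMap.congr_fun h3 v)
    have h5 : d * (d - 1) = 0 := by linear_combination h4
    rcases mul_eq_zero.1 h5 with h6 | h6
    · rw [hsP, h6, zero_smul, LinearMap.range_zero, finrank_bot, Nat.coprime_zero_left] at hcop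
      omega
    · rw [hsP, sub_eq_zero.1 h6, one_smul] at hcop
      have h7 : LinearMap.range (1 : End K V) = ⊤ := LinearMap.range_id
      rw [h7, finrank_top, Nat.coprime_self] at hcop
      omega
  have hbr' : ∀ x ∈ M0.map (LinearMap.id : End K V →ₗ[K] End K V),
      ∀ y ∈ M0.map (LinearMap.id : End K V →ₗ[K] End K V),
      x * y - y * x ∈ M0.map (LinearMap.id : End K V →ₗ[K] End K V) := by
    rw [Submodule.map_id]
    exact hbr
  have hfin := R.simple le_top hbr hirr' htr' hsmp hsM hs0 hbr'
  have hL : toLie (M0.map (LinearMap.id : End K V →ₗ[K] End K V)) hbr' = L := by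
    ext x
    change x ∈ M0.map (LinearMap.id : End K V →ₗ[K] End K V) ↔ x ∈ L
    rw [Submodule.map_id, hmem]
  rw [← hL]
  exact hfin

end Pool.Agent.Helper2.MC
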