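import Pool.Agent.Helper2.MC.Cliff
import Pool.Agent.Helper2.MC.Num
import Pool.Agent.Helper88.UN.LM
import Pool.Agent.Helper2.MC.Simple

/-!
Project MC (MP_b8862a_ag). A Lie algebra of endomorphisms which is stable under a group whose subgroups of finite index are
irreducible, and contains the scalars and an idempotent whose rank is prime to the dimension, consists of all the endomorphisms.
-/

set_option autoImplicit false
set_option linter.unusedSectionVars false

namespace Pool.Agent.Helper2.MC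

open Module Pool.Agent.Helper15.MT

attribute [local instance 100] LieRing.ofAssociativeRing

variable {L V Γ : Type*} [Field L] [AddCommGroup V] [Module L V] [Group Γ]

/-- an idempotent of rank one -/
theorem exists_rk_of {P : End L V} (hPP : P * P = P) (h1 : finrank L (LinearMap.range P) = 1) :
    ∃ (v : V) (φ : Dual L V), φ v = 1 ∧ P = rk v φ := by
  obtain ⟨⟨v, hv⟩, hv0, h3⟩ := finrank_eq_one_iff'.1 h1
  have hPv : P v = v := by
    obtain ⟨w, hw⟩ := hv
    rw [← hw]
    exact LinearMap.congr_fun hPP w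
  have hv0' : v ≠ 0 := fun h => hv0 (Subtype.ext h)
  have h4 : ∀ w, ∃ c : L, P w = c • v := by
    intro w
    obtain ⟨c, hc⟩ := h3 ⟨P w, w, rfl⟩
    exact ⟨c, (congrArg Subtype.val hc).symm⟩
  choose c hc using h4
  refine ⟨v, { toFun := c, map_add' := ?_, map_smul' := ?_ }, ?_, ?_⟩
  · intro a b
    have h5 := hc (a + b)
    rw [map_add, hc a, hc b, ← add_smul] at h5
    exact (smul_left_injective L hv0' h5).symm
  · intro t a
    have h5 := hc (t • a)
    rw [map_smul, hc a, smul_smul] at h5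
    exact (smul_left_injective L hv0' h5).symm
  · have h5 := hc v
    rw [hPv] at h5
    have h6 : (1 : L) • v = c v • v := by rw [one_smul]; exact h5
    exact (smul_left_injective L hv0' h6).symm
  · ext w
    exact hc w

/-- **The block theorem for coprime multiplicities.** -/
theorem full_of_coprime [CharZero L] [IsAlgClosed L] [FiniteDimensional L V] (ρ : Γ →* End L V)
    (hirr : ∀ Γ' : Subgroup Γ, Γ'.FiniteIndex → ∀ S : Submodule L V,
      (∀ g ∈ Γ', ∀ s ∈ S, ρ g s ∈ S) → S = ⊥ ∨ S = ⊤)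
    {𝔩 : Submodule L (End L V)} (hl : IsLie 𝔩) (hconj : ∀ g, ∀ x ∈ 𝔩, ρ g * x * ρ g⁻¹ ∈ 𝔩)
    (h1 : (1 : End L V) ∈ 𝔩) {P : End L V} (hP : P ∈ 𝔩) (hPP : P * P = P)
    (hcop : Nat.Coprime (finrank L (LinearMap.range P)) (finrank L V)) (h2 : 2 ≤ finrank L V) :
    𝔩 = ⊤ := by
  classical
  have hrn := LinearMap.finrank_range_add_finrank_ker P
  have hcop' : Nat.Coprime (finrank L (LinearMap.ker P)) (finrank L V) := by
    rw [← hrn] at hcop ⊢
    rw [Nat.coprime_self_add_right] at hcop
    rw [Nat.coprime_add_self_right]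
    exact hcop.symm
  have hirr' : ∀ W : Submodule L V, (∀ x ∈ 𝔩, ∀ w ∈ W, x w ∈ W) → W = ⊥ ∨ W = ⊤ :=
    irr_of_coprime ρ hirr hconj hP hcop'
  by_cases hr : finrank L (LinearMap.range P) = 1
  · obtain ⟨v, φ, hv, rfl⟩ := exists_rk_of hPP hr
    exact top_of_irred hl v φ hv hP hirr'
  have hpq : 2 * finrank L (LinearMap.range P) ≠ finrank L V := by
    intro h
    apply hr
    rw [← h] at hcop
    exact Nat.dvd_one.1 (hcop ▸ Nat.dvd_gcd dvd_rfl (Dvd.intro_left 2 rfl))
  have hV : Nontrivial V := Module.nontrivial_of_finrank_pos (R := L) (by omega)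
  have hn0 : (finrank L V : L) ≠ 0 := by
    have : finrank L V ≠ 0 := by omega
    exact_mod_cast this
  -- the elements of trace zero
  let L0 : LieSubalgebra L (End L V) :=
    { 𝔩 ⊓ LinearMap.ker (LinearMap.trace L V) with
      lie_mem' := by
        rintro x y ⟨hx, _⟩ ⟨hy, _⟩
        refine ⟨hl x hx y hy, ?_⟩
        show LinearMap.trace L V (x * y - y * x) = 0
        rw [map_sub, LinearMap.trace_mul_comm, sub_self] }
  have hmem : ∀ x, x ∈ L0 ↔ x ∈ 𝔩 ∧ LinearMap.trace L V x = 0 := fun x => Iff.rfl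
  have hdec : ∀ x ∈ 𝔩, ∃ c : L, x - c • 1 ∈ L0 := by
    intro x hx
    refine ⟨LinearMap.trace L V x / finrank L V, 𝔩.sub_mem hx (𝔩.smul_mem _ h1), ?_⟩
    show LinearMap.trace L V _ = 0
    rw [map_sub, map_smul, LinearMap.trace_one, smul_eq_mul, div_mul_cancel₀ _ hn0, sub_self]
  have hirr0 : ∀ W : Submodule L V, (∀ z ∈ L0, ∀ w ∈ W, z w ∈ W) → W = ⊥ ∨ W = ⊤ := by
    intro W hW
    refine hirr' W fun x hx w hw => ?_
    obtain ⟨c, hc⟩ := hdec x hx
    have h3 := W.add_mem (hW _ hc w hw) (W.smul_mem c hw)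
    rwa [LinearMap.sub_apply, LinearMap.smul_apply, Module.End.one_apply, sub_add_cancel] at h3
  have htr : ∀ z ∈ L0, LinearMap.trace L V z = 0 := fun z hz => hz.2
  obtain ⟨d, hd⟩ := hdec P hP
  have hs := simple_of_coprime hirr0 htr hPP hd hcop h2
  have hP0 : P ≠ 0 := by
    rintro rfl
    rw [LinearMap.range_zero, finrank_bot] at hcop
    rw [Nat.coprime_zero_left] at hcop
    omega
  have hP1 : P ≠ 1 := by
    rintro rfl
    have h3 : LinearMap.range (1 : End L V) = ⊤ := LinearMap.range_id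
    rw [h3, finrank_top, Nat.coprime_self] at hcop
    omega
  -- an element of square zero
  obtain ⟨N, hN, hNN, hN0⟩ : ∃ N ∈ L0, N * N = 0 ∧ N ≠ 0 := by
    by_contra hcon
    push Not at hcon
    have hc : ∀ x ∈ 𝔩, P * x = x * P := by
      intro x hx
      obtain ⟨h3, h4⟩ := part_mem hl hP hPP hx
      have hQ : P * (1 - P) = 0 := by rw [mul_sub, mul_one, hPP, sub_self]
      have hQ' : (1 - P) * P = 0 := by rw [sub_mul, one_mul, hPP, sub_self]
      have h5 : (1 - P) * x * P = 0 := by
        refine hcon _ ⟨h3, ?_⟩ ?_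
        · show LinearMap.trace L V _ = 0
          rw [LinearMap.trace_mul_comm, ← mul_assoc, hQ, zero_mul, map_zero]
        · calc (1 - P) * x * P * ((1 - P) * x * P) = (1 - P) * x * (P * (1 - P)) * x * P := by
                simp only [mul_assoc]
            _ = 0 := by rw [hQ, mul_zero, zero_mul, zero_mul]
      have h6 : P * x * (1 - P) = 0 := by
        refine hcon _ ⟨h4, ?_⟩ ?_
        · show LinearMap.trace L V _ = 0
          rw [LinearMap.trace_mul_comm, ← mul_assoc, hQ', zero_mul, map_zero]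
        · calc P * x * (1 - P) * (P * x * (1 - P)) = P * x * ((1 - P) * P) * x * (1 - P) := by
                simp only [mul_assoc]
            _ = 0 := by rw [hQ', mul_zero, zero_mul, zero_mul]
      have h7 : P * x - x * P = P * x * (1 - P) - (1 - P) * x * P := by noncomm_ring
      rw [h5, h6, sub_self] at h7
      exact sub_eq_zero.1 h7
    rcases hirr' (LinearMap.range P) (by
      rintro x hx _ ⟨w, rfl⟩
      refine ⟨x w, ?_⟩
      exact LinearMap.congr_fun (hc x hx) w) with h3 | h3
    · exact hP0 (LinearMap.range_eq_bot.1 h3)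
    · rw [h3, finrank_top, Nat.coprime_self] at hcop
      omega
  rcases UN.lie_main hirr0 htr hs hPP hP0 hP1 hd hpq hN hNN hN0 with h3 | ⟨n, k, hk, hkn, -, h4, h5, -⟩
  · refine eq_top_iff.2 fun z _ => ?_
    have h4 := h3 (z - (LinearMap.trace L V z / finrank L V) • 1) (by
      rw [map_sub, map_smul, LinearMap.trace_one, smul_eq_mul, div_mul_cancel₀ _ hn0, sub_self])
    have h5 := 𝔩.add_mem h4.1 (𝔩.smul_mem (LinearMap.trace L V z / finrank L V) h1)
    rwa [sub_add_cancel] at h5
  · exfalso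
    apply not_coprime_choose hk hkn
    rw [← h4, ← h5]
    exact hcop

end Pool.Agent.Helper2.MC
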