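import Pool.Agent.Helper15.MT.Irr

/-!
Project MC (MP_b8862a_ag). Clifford theory over any field (after Helper53/EL/Cliff.lean), and: a Lie algebra of endomorphisms
which is stable under a group whose subgroups of finite index are irreducible, and contains an idempotent whose rank is prime to
the dimension, is irreducible.
-/

set_option autoImplicit false
set_option linter.unusedSectionVars false

namespace Pool.Agent.Helper2.MC

open Module

section aux

variable {K V G : Type*} [Field K] [AddCommGroup V] [Module K V] [Group G] {A : Subalgebra K (Module.End K V)}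
  {ρ : G →* (Module.End K V)ˣ}

def Nrm (A : Subalgebra K (Module.End K V)) (ρ : G →* (Module.End K V)ˣ) : Prop :=
  ∀ g, ∀ a ∈ A, ((ρ g : (Module.End K V)ˣ) : Module.End K V) * a * ((ρ g⁻¹ : (Module.End K V)ˣ) : Module.End K V) ∈ A

lemma inv_app (g : G) (v : V) : (ρ g⁻¹ : Module.End K V) ((ρ g : Module.End K V) v) = v := by
  rw [← Module.End.mul_apply, ← Units.val_mul, ← map_mul, inv_mul_cancel, map_one, Units.val_one,
    Module.End.one_apply]

lemma app_inv (g : G) (v : V) : (ρ g : Module.End K V) ((ρ g⁻¹ : Module.End K V) v) = v := by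
  rw [← Module.End.mul_apply, ← Units.val_mul, ← map_mul, mul_inv_cancel, map_one, Units.val_one,
    Module.End.one_apply]

/-- the conjugate of an element of `A` -/
def cj' (hn : Nrm A ρ) (g : G) (a : A) : A := ⟨_, hn g a.1 a.2⟩

lemma cj'_smul (hn : Nrm A ρ) (g : G) (a : A) (v : V) :
    cj' hn g a • (ρ g : Module.End K V) v = (ρ g : Module.End K V) (a • v) := by
  change ((ρ g : Module.End K V) * a.1 * (ρ g⁻¹ : Module.End K V)) ((ρ g : Module.End K V) v) = _
  rw [Module.End.mul_apply, inv_app, Module.End.mul_apply]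
  rfl

/-- the preimage of a submodule -/
def cm (hn : Nrm A ρ) (g : G) (W : Submodule A V) : Submodule A V where
  carrier := {v | (ρ g : Module.End K V) v ∈ W}
  add_mem' := by
    intro v w hv hw
    rw [Set.mem_ofPred_eq, map_add]
    exact W.add_mem hv hw
  zero_mem' := by
    rw [Set.mem_ofPred_eq, map_zero]
    exact W.zero_mem
  smul_mem' := by
    intro a v hv
    rw [Set.mem_ofPred_eq, ← cj'_smul hn]
    exact W.smul_mem _ hv

lemma mem_cm (hn : Nrm A ρ) (g : G) (W : Submodule A V) (v : V) :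
    v ∈ cm hn g W ↔ (ρ g : Module.End K V) v ∈ W := Iff.rfl

lemma cm_inv (hn : Nrm A ρ) (g : G) (W : Submodule A V) : cm hn g⁻¹ (cm hn g W) = W := by
  ext v
  rw [mem_cm, mem_cm, app_inv]

lemma cm_inv' (hn : Nrm A ρ) (g : G) (W : Submodule A V) : cm hn g (cm hn g⁻¹ W) = W := by
  ext v
  rw [mem_cm, mem_cm, inv_app]

lemma cm_mono (hn : Nrm A ρ) (g : G) {W W' : Submodule A V} (h : W ≤ W') : cm hn g W ≤ cm hn g W' :=
  fun _ hv => h hv

/-- as an order isomorphism -/
def cmO (hn : Nrm A ρ) (g : G) : Submodule A V ≃o Submodule A V where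
  toFun := cm hn g
  invFun := cm hn g⁻¹
  left_inv := cm_inv hn g
  right_inv := cm_inv' hn g
  map_rel_iff' := by
    intro W W'
    constructor
    · intro h
      have := cm_mono hn g⁻¹ h
      change cm hn g⁻¹ (cm hn g W) ≤ cm hn g⁻¹ (cm hn g W') at this
      rwa [cm_inv, cm_inv] at this
    · exact fun h => cm_mono hn g h

lemma cm_simple (hn : Nrm A ρ) (g : G) {S : Submodule A V} (h : IsSimpleModule A S) :
    IsSimpleModule A (cm hn g S) := by
  rw [isSimpleModule_iff_isAtom] at h ⊢
  exact ((cmO hn g).isAtom_iff S).2 h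

def tm (hn : Nrm A ρ) (g : G) (S : Submodule A V) (v : cm hn g S) : S :=
  ⟨(ρ g : Module.End K V) v.1, v.2⟩

lemma tm_add (hn : Nrm A ρ) (g : G) (S : Submodule A V) (v w : cm hn g S) :
    tm hn g S (v + w) = tm hn g S v + tm hn g S w :=
  Subtype.ext (map_add (ρ g : Module.End K V) v.1 w.1)

lemma tm_smul (hn : Nrm A ρ) (g : G) (S : Submodule A V) (a : A) (v : cm hn g S) :
    tm hn g S (a • v) = cj' hn g a • tm hn g S v :=
  Subtype.ext (cj'_smul hn g a v.1).symm

def um (hn : Nrm A ρ) (g : G) (S : Submodule A V) (v : S) : cm hn g S :=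
  ⟨(ρ g⁻¹ : Module.End K V) v.1, by
    rw [mem_cm, app_inv]
    exact v.2⟩

lemma um_add (hn : Nrm A ρ) (g : G) (S : Submodule A V) (v w : S) :
    um hn g S (v + w) = um hn g S v + um hn g S w :=
  Subtype.ext (map_add (ρ g⁻¹ : Module.End K V) v.1 w.1)

lemma um_smul (hn : Nrm A ρ) (g : G) (S : Submodule A V) (a : A) (v : S) :
    um hn g S (cj' hn g a • v) = a • um hn g S v := by
  apply Subtype.ext
  apply Function.LeftInverse.injective (inv_app (ρ := ρ) g)
  change (ρ g : Module.End K V) ((ρ g⁻¹ : Module.End K V) (cj' hn g a • v.1)) =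
    (ρ g : Module.End K V) (a • (ρ g⁻¹ : Module.End K V) v.1)
  rw [app_inv, ← cj'_smul hn, app_inv]

lemma um_tm (hn : Nrm A ρ) (g : G) (S : Submodule A V) (v : cm hn g S) :
    um hn g S (tm hn g S v) = v := Subtype.ext (inv_app g v.1)

lemma tm_um (hn : Nrm A ρ) (g : G) (S : Submodule A V) (v : S) :
    tm hn g S (um hn g S v) = v := Subtype.ext (app_inv g v.1)

/-- transport of isomorphisms -/
def cmE (hn : Nrm A ρ) (g : G) {S T : Submodule A V} (e : S ≃ₗ[A] T) : cm hn g S ≃ₗ[A] cm hn g T where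
  toFun v := um hn g T (e (tm hn g S v))
  invFun v := um hn g S (e.symm (tm hn g T v))
  map_add' := by
    intro v w
    rw [tm_add, map_add, um_add]
  map_smul' := by
    intro a v
    rw [tm_smul, map_smul, um_smul, RingHom.id_apply]
  left_inv := by
    intro v
    change um hn g S (e.symm (tm hn g T (um hn g T (e (tm hn g S v))))) = v
    rw [tm_um, LinearEquiv.symm_apply_apply, um_tm]
  right_inv := by
    intro v
    change um hn g T (e (tm hn g S (um hn g S (e.symm (tm hn g T v))))) = v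
    rw [tm_um, LinearEquiv.apply_symm_apply, um_tm]

lemma cm_iso (hn : Nrm A ρ) (g : G) (S : Submodule A V) :
    cm hn g (isotypicComponent A V S) = isotypicComponent A V (cm hn g S) := by
  change cmO hn g (sSup _) = sSup _
  rw [OrderIso.map_sSup, ← sSup_image]
  congr 1
  ext T
  constructor
  · rintro ⟨m, ⟨e⟩, rfl⟩
    exact ⟨cmE hn g e⟩
  · rintro ⟨e⟩
    refine ⟨cm hn g⁻¹ T, ?_, cm_inv' hn g T⟩
    have h1 := cmE hn g⁻¹ e
    rw [cm_inv] at h1
    exact ⟨h1⟩

/-- the action on the submodules -/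
def act (hn : Nrm A ρ) : MulAction G (Submodule A V) where
  smul g W := cm hn g⁻¹ W
  one_smul W := by
    change cm hn 1⁻¹ W = W
    ext v
    rw [mem_cm, inv_one, map_one, Units.val_one, Module.End.one_apply]
  mul_smul g g' W := by
    change cm hn (g * g')⁻¹ W = cm hn g⁻¹ (cm hn g'⁻¹ W)
    ext v
    rw [mem_cm, mem_cm, mem_cm, _root_.mul_inv_rev, map_mul, Units.val_mul, Module.End.mul_apply]

lemma cm_mem (hn : Nrm A ρ) (g : G) {W : Submodule A V} (hW : W ∈ isotypicComponents A V) :
    cm hn g W ∈ isotypicComponents A V := by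
  obtain ⟨S, hS, rfl⟩ := hW
  exact ⟨cm hn g S, cm_simple hn g hS, cm_iso hn g S⟩

lemma semisimple [FiniteDimensional K V] (hn : Nrm A ρ)
    (hirr : ∀ W : Submodule K V, (∀ g, ∀ w ∈ W, (ρ g : Module.End K V) w ∈ W) → W = ⊥ ∨ W = ⊤) :
    IsSemisimpleModule A V := by
  haveI : IsArtinian A V := isArtinian_of_tower K inferInstance
  obtain ⟨Q, hQ⟩ : ∃ Q : Submodule A V, Q = sSup {m : Submodule A V | IsSimpleModule A m} := ⟨_, rfl⟩
  have h1 : ∀ g, cm hn g Q = Q := by
    intro g
    have h2 : cmO hn g Q = Q := by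
      rw [hQ, OrderIso.map_sSup, ← sSup_image]
      congr 1
      ext T
      constructor
      · rintro ⟨m, hm, rfl⟩
        exact cm_simple hn g hm
      · intro hT
        exact ⟨cm hn g⁻¹ T, cm_simple hn g⁻¹ hT, cm_inv' hn g T⟩
    exact h2
  have h3 := hirr (Q.restrictScalars K) fun g w hw => by
    rw [Submodule.restrictScalars_mem] at hw ⊢
    rw [← h1 g] at hw
    exact hw
  have h4 : Q = ⊤ := by
    rcases h3 with h3 | h3
    · rw [Submodule.restrictScalars_eq_bot_iff] at h3
      rcases subsingleton_or_nontrivial V with hV | hV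
      · exact Subsingleton.elim _ _
      · exfalso
        obtain ⟨S, hS⟩ := IsAtomic.exists_atom (Submodule A V)
        have h5 : S ≤ Q := by
          rw [hQ]
          exact le_sSup (isSimpleModule_iff_isAtom.2 hS)
        rw [h3] at h5
        exact hS.1 (le_bot_iff.1 h5)
    · rwa [Submodule.restrictScalars_eq_top_iff] at h3
  exact IsSemisimpleModule.of_sSup_simples_eq_top (by rw [← hQ, h4])

lemma isotypic [FiniteDimensional K V] [Nontrivial V] (hn : Nrm A ρ)
    (hirr : ∀ G' : Subgroup G, G'.index ≠ 0 → ∀ W : Submodule K V,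
      (∀ g ∈ G', ∀ w ∈ W, (ρ g : Module.End K V) w ∈ W) → W = ⊥ ∨ W = ⊤) :
    ∃ (S : Submodule A V) (d : ℕ), IsSimpleModule A S ∧ Nonempty (V ≃ₗ[A] Fin d → S) := by
  haveI : IsSemisimpleModule A V := semisimple hn fun W hW =>
    hirr ⊤ (by rw [Subgroup.index_top]; exact one_ne_zero) W fun g _ => hW g
  haveI : IsArtinian A V := isArtinian_of_tower K inferInstance
  haveI : IsNoetherian A V := isNoetherian_of_tower K inferInstance
  haveI : Module.Finite A V := Module.Finite.of_restrictScalars_finite K A V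
  obtain ⟨S, hS⟩ : ∃ S : Submodule A V, IsAtom S := IsAtomic.exists_atom (Submodule A V)
  have hSs : IsSimpleModule A S := isSimpleModule_iff_isAtom.2 hS
  obtain ⟨C, hC⟩ : ∃ C : Submodule A V, C = isotypicComponent A V S := ⟨_, rfl⟩
  have hCm : C ∈ isotypicComponents A V := ⟨S, hSs, hC⟩
  letI := act hn
  have h1 : (MulAction.stabilizer G C).index ≠ 0 := by
    rw [MulAction.index_stabilizer]
    have h2 : MulAction.orbit G C ⊆ isotypicComponents A V := by
      rintro _ ⟨g, rfl⟩
      exact cm_mem hn g⁻¹ hCm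
    have h3 : (MulAction.orbit G C).Finite := Set.Finite.subset (Set.toFinite _) h2
    rw [Ne, Set.ncard_eq_zero h3]
    exact (MulAction.nonempty_orbit C).ne_empty
  have h2 := hirr _ h1 (C.restrictScalars K) fun g hg w hw => by
    rw [Submodule.restrictScalars_mem] at hw ⊢
    have h3 : cm hn g⁻¹ C = C := hg
    rw [← h3, mem_cm, inv_app]
    exact hw
  have h3 : C = ⊤ := by
    rcases h2 with h2 | h2
    · rw [Submodule.restrictScalars_eq_bot_iff] at h2
      exact absurd h2 (bot_lt_isotypicComponents hCm).ne'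
    · rwa [Submodule.restrictScalars_eq_top_iff] at h2
  have h4 : IsIsotypicOfType A V S := IsIsotypicOfType.of_isotypicComponent_eq_top (hC ▸ h3)
  obtain ⟨d, hd⟩ := h4.linearEquiv_fun
  exact ⟨S, d, hSs, hd⟩

/-- the kernel of an element of `A` in `V ≅ S^d` -/
def kerE {S : Submodule A V} {d : ℕ} (e : V ≃ₗ[A] Fin d → S) (a : A) :
    LinearMap.ker (a : Module.End K V) ≃ₗ[K]
      (Fin d → (LinearMap.ker (a : Module.End K V) ⊓ S.restrictScalars K : Submodule K V)) where
  toFun v := fun i => ⟨(e v.1 i).1, by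
    have h1 : a • v.1 = 0 := v.2
    have h2 : a • e v.1 i = 0 := by rw [← Pi.smul_apply, ← map_smul, h1, map_zero, Pi.zero_apply]
    exact congrArg Subtype.val h2, (e v.1 i).2⟩
  map_add' v w := by
    funext i
    apply Subtype.ext
    change (e (v.1 + w.1) i).1 = (e v.1 i).1 + (e w.1 i).1
    rw [map_add]
    rfl
  map_smul' c v := by
    funext i
    apply Subtype.ext
    have h1 : e (c • v.1) = (algebraMap K A c) • e v.1 := by
      rw [← map_smul, algebraMap_smul]
    change (e (c • v.1) i).1 = c • (e v.1 i).1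
    rw [h1]
    change (algebraMap K A c) • (e v.1 i).1 = _
    rw [algebraMap_smul]
  invFun f := ⟨e.symm fun i => ⟨(f i).1, (f i).2.2⟩, by
    change a • e.symm _ = 0
    rw [← map_smul, map_eq_zero_iff _ e.symm.injective]
    funext i
    exact Subtype.ext (f i).2.1⟩
  left_inv v := by
    apply Subtype.ext
    exact e.symm_apply_apply v.1
  right_inv f := by
    funext i
    apply Subtype.ext
    change (e (e.symm _) i).1 = _
    rw [LinearEquiv.apply_symm_apply]

lemma dvd_finrank_ker [FiniteDimensional K V] {S : Submodule A V} {d : ℕ} (e : V ≃ₗ[A] Fin d → S) (a : A) :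
    d ∣ Module.finrank K (LinearMap.ker (a : Module.End K V)) := by
  rw [(kerE e a).finrank_eq, Module.finrank_pi_fintype, Finset.sum_const, Finset.card_univ, Fintype.card_fin,
    smul_eq_mul]
  exact Dvd.intro _ rfl

lemma bot_or_top [FiniteDimensional K V] {S : Submodule A V} (hS : IsSimpleModule A S)
    (e : V ≃ₗ[A] Fin 1 → S) (W : Submodule A V) : W = ⊥ ∨ W = ⊤ := by
  have h1 := (kerE e 0).finrank_eq
  rw [Module.finrank_pi_fintype, Finset.sum_const, Finset.card_univ, Fintype.card_fin, one_smul] at h1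
  have h2 : LinearMap.ker ((0 : A) : Module.End K V) = ⊤ := LinearMap.ker_zero
  rw [h2, top_inf_eq] at h1
  have h3 : S.restrictScalars K = ⊤ := Submodule.eq_top_of_finrank_eq (by rw [← h1, finrank_top])
  rw [Submodule.restrictScalars_eq_top_iff] at h3
  rw [isSimpleModule_iff_isAtom, h3] at hS
  rcases eq_or_ne W ⊤ with h4 | h4
  · exact Or.inr h4
  · exact Or.inl (hS.2 W (lt_top_iff_ne_top.2 h4))

end aux

section irr

variable {L V Γ : Type*} [Field L] [AddCommGroup V] [Module L V] [Group Γ]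

/-- the homomorphism to the units -/
noncomputable def toU (ρ : Γ →* Module.End L V) : Γ →* (Module.End L V)ˣ where
  toFun g := ⟨ρ g, ρ g⁻¹, by rw [← map_mul, mul_inv_cancel, map_one], by
    rw [← map_mul, inv_mul_cancel, map_one]⟩
  map_one' := Units.ext (map_one ρ)
  map_mul' g h := Units.ext (map_mul ρ g h)

theorem irr_of_coprime [FiniteDimensional L V] (ρ : Γ →* Module.End L V)
    (hirr : ∀ Γ' : Subgroup Γ, Γ'.FiniteIndex → ∀ S : Submodule L V,
      (∀ g ∈ Γ', ∀ s ∈ S, ρ g s ∈ S) → S = ⊥ ∨ S = ⊤)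
    {𝔩 : Submodule L (Module.End L V)} (hconj : ∀ g, ∀ x ∈ 𝔩, ρ g * x * ρ g⁻¹ ∈ 𝔩)
    {P : Module.End L V} (hP : P ∈ 𝔩) 
    (hcop : Nat.Coprime (finrank L (LinearMap.ker P)) (finrank L V)) (W : Submodule L V)
    (hW : ∀ x ∈ 𝔩, ∀ w ∈ W, x w ∈ W) : W = ⊥ ∨ W = ⊤ := by
  rcases subsingleton_or_nontrivial V with hV | hV
  · exact Or.inl (Subsingleton.elim _ _)
  obtain ⟨A, hA⟩ : ∃ A : Subalgebra L (Module.End L V), A = Algebra.adjoin L (𝔩 : Set (Module.End L V)) := ⟨_, rfl⟩
  have hsub : ∀ x ∈ 𝔩, x ∈ A := fun x hx => by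
    rw [hA]
    exact Algebra.subset_adjoin hx
  have hN : Nrm A (toU ρ) := by
    intro g a ha
    change ρ g * a * ρ g⁻¹ ∈ A
    have hone : ρ g * ρ g⁻¹ = 1 := by rw [← map_mul, mul_inv_cancel, map_one]
    have hone' : ρ g⁻¹ * ρ g = 1 := by rw [← map_mul, inv_mul_cancel, map_one]
    rw [hA] at ha
    induction ha using Algebra.adjoin_induction with
    | mem x hx => exact hsub _ (hconj g x hx)
    | algebraMap r =>
      rw [← Algebra.commutes r, mul_assoc, hone, mul_one]
      exact A.algebraMap_mem r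
    | add x y _ _ hx hy =>
      rw [mul_add, add_mul]
      exact A.add_mem hx hy
    | mul x y _ _ hx hy =>
      have h3 := A.mul_mem hx hy
      have h4 : ρ g * x * ρ g⁻¹ * (ρ g * y * ρ g⁻¹) = ρ g * x * (ρ g⁻¹ * ρ g) * y * ρ g⁻¹ := by
        simp only [mul_assoc]
      rw [h4, hone', mul_one] at h3
      simpa only [mul_assoc] using h3
  obtain ⟨T, d, hT, ⟨e⟩⟩ := isotypic hN (by
    intro G' hG' U hU
    exact hirr G' ⟨hG'⟩ U hU)
  have hd1 : d = 1 := by
    have h1 : d ∣ finrank L (LinearMap.ker P) := dvd_finrank_ker e ⟨P, hsub P hP⟩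
    have h2 : d ∣ finrank L V := by
      have h3 := dvd_finrank_ker e (0 : A)
      have h4 : LinearMap.ker ((0 : A) : Module.End L V) = ⊤ := LinearMap.ker_zero
      rwa [h4, finrank_top] at h3
    exact Nat.dvd_one.1 (hcop ▸ Nat.dvd_gcd h1 h2)
  subst hd1
  have hWA : ∀ a ∈ A, ∀ w ∈ W, a w ∈ W := by
    intro a ha
    rw [hA] at ha
    induction ha using Algebra.adjoin_induction with
    | mem x hx => exact hW x hx
    | algebraMap r =>
      intro w hw
      rw [Module.algebraMap_end_apply]
      exact W.smul_mem r hw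
    | add x y _ _ hx hy =>
      intro w hw
      exact W.add_mem (hx w hw) (hy w hw)
    | mul x y _ _ hx hy =>
      intro w hw
      exact hx _ (hy w hw)
  let W' : Submodule A V :=
    { carrier := W
      add_mem' := W.add_mem
      zero_mem' := W.zero_mem
      smul_mem' := fun a w hw => hWA a.1 a.2 w hw }
  rcases bot_or_top hT e W' with h1 | h1
  · left
    rw [eq_bot_iff]
    intro w hw
    have h2 : w ∈ W' := hw
    rw [h1, Submodule.mem_bot] at h2
    rw [h2]
    exact Submodule.zero_mem _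
  · right
    rw [eq_top_iff]
    intro w _
    have h2 : w ∈ W' := by rw [h1]; exact Submodule.mem_top
    exact h2

end irr

end Pool.Agent.Helper2.MC
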